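import Pool.Agent.HAR.Stmts

/-!
# Squad HAR, row CON: conditioning
-/

namespace Pool.Agent.HAR.H3

open Finset

theorem card_eq_sum {Ω : Type} [Fintype Ω] (E : Ω → Prop) [DecidablePred E] :
    (Nat.card {ω // E ω} : ℝ) = ∑ ω, if E ω then (1 : ℝ) else 0 := by
  rw [Nat.card_eq_fintype_card, Fintype.card_subtype, Finset.card_filter]
  push_cast
  rfl

theorem con : ConStmt := by
  intro ι _ _ D E p h
  classical
  have hF : Fintype ι := Fintype.ofFinite ι
  let e : (ι → Bool) ≃ ({i // i ∈ D} → Bool) × ({i // ¬ i ∈ D} → Bool) :=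
    Equiv.piEquivPiSubtypeProd (fun i => i ∈ D) (fun _ => Bool)
  have hsymm : ∀ (y : {i // i ∈ D} → Bool) (z : {i // ¬ i ∈ D} → Bool) (i : ι),
      e.symm (y, z) i = if h : i ∈ D then y ⟨i, h⟩ else z ⟨i, h⟩ := fun y z i => rfl
  have hD : (0 : ℝ) < Nat.card ({i // i ∈ D} → Bool) := by
    exact_mod_cast Nat.card_pos
  have hC : (0 : ℝ) < Nat.card ({i // ¬ i ∈ D} → Bool) := by
    exact_mod_cast Nat.card_pos
  have hcard : (Nat.card (ι → Bool) : ℝ) =
      Nat.card ({i // i ∈ D} → Bool) * Nat.card ({i // ¬ i ∈ D} → Bool) := by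
    rw [Nat.card_congr e, Nat.card_prod]
    push_cast
    rfl
  have hz : ∀ z : {i // ¬ i ∈ D} → Bool,
      ∑ y : {i // i ∈ D} → Bool, (if E (e.symm (y, z)) then (1 : ℝ) else 0) ≤
        p * Nat.card ({i // i ∈ D} → Bool) := by
    intro z
    have h1 := h fun i => if h : i ∈ D then false else z ⟨i, h⟩
    have h2 : (fun y : {i // i ∈ D} → Bool => E fun i => if h : i ∈ D then y ⟨i, h⟩ else
        (fun i => if h : i ∈ D then false else z ⟨i, h⟩) i) = fun y => E (e.symm (y, z)) := by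
      funext y
      congr 1
      funext i
      rw [hsymm]
      by_cases hi : i ∈ D
      · rw [dif_pos hi, dif_pos hi]
      · rw [dif_neg hi, dif_neg hi]
        exact dif_neg hi
    have h3 : pr (fun y : {i // i ∈ D} → Bool => E (e.symm (y, z))) ≤ p := by
      rw [← h2]
      exact h1
    unfold pr at h3
    rw [div_le_iff₀ hD, card_eq_sum] at h3
    exact h3
  have hsum : (Nat.card {x // E x} : ℝ) ≤
      Nat.card ({i // ¬ i ∈ D} → Bool) * (p * Nat.card ({i // i ∈ D} → Bool)) := by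
    rw [card_eq_sum, ← Equiv.sum_comp e.symm, Fintype.sum_prod_type_right]
    refine (Finset.sum_le_sum fun z _ => hz z).trans_eq ?_
    rw [Finset.sum_const, Finset.card_univ, nsmul_eq_mul,
      Nat.card_eq_fintype_card (α := {i // ¬ i ∈ D} → Bool)]
  unfold pr
  rw [hcard, div_le_iff₀ (by positivity)]
  linarith

end Pool.Agent.HAR.H3
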